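import Pool.Agent.R472.GridMat
import Pool.Agent.R472.GridTwo
import Pool.Agent.R719.LF.Shp

/-!
# Quadratic forms supported on the triangular lattice
-/

set_option autoImplicit false
set_option linter.unusedSectionVars false

namespace Pool.Agent.V5helper31.GF

open Matrix TH57.Thr TH6.LF TH6.CX Pool.Agent.R719.LF Pool.Agent.R472.Grid

section defs

variable {Γ : Type} [Group Γ] {n m : ℕ} {G : Set (MonoidAlgebra ℤ Γ)} (p : Prog G m)
  (x x' : Fin n → Fin m) (L : ℕ)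

/-- the couplings at the end -/
noncomputable def Dd (Γ : Type) [Group Γ] {n m : ℕ} (x x' : Fin n → Fin m) (L : ℕ) :
    Matrix (Fin (L + 1) × Fin m) (Fin (L + 1) × Fin m) (MonoidAlgebra ℤ Γ) :=
  adj (Dm x L (MonoidAlgebra ℤ Γ)) * Dm x' L (MonoidAlgebra ℤ Γ)

/-- the form on the lattice -/
noncomputable def PH :
    Matrix (Fin n ⊕ (Fin (L + 1) × Fin m ⊕ Fin (L + 1) × Fin m))
      (Fin n ⊕ (Fin (L + 1) × Fin m ⊕ Fin (L + 1) × Fin m)) (MonoidAlgebra ℤ Γ) :=
  fromBlocks 0 0 (fromRows (-(p.Cm x L)) 0) (fromBlocks 0 (1 - p.Nm L) 0 (Dd Γ x x' L))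

/-- the change of basis -/
noncomputable def UU (ε : ℤ) :
    Matrix (Fin n ⊕ (Fin (L + 1) × Fin m ⊕ Fin (L + 1) × Fin m))
      (Fin n ⊕ (Fin (L + 1) × Fin m ⊕ Fin (L + 1) × Fin m)) (MonoidAlgebra ℤ Γ) :=
  fromBlocks 1 0 (fromRows (ε • (Dd Γ x x' L * p.Fm x L)) (-(p.Fm x L)))
    (fromBlocks (adj (1 - p.Nm L)) (adj (Dd Γ x x' L)) 0 1)

theorem DFF (ψ : Matrix (Fin n) (Fin n) (MonoidAlgebra ℤ Γ))
    (h1 : ∀ i j, p.run (L + 1) (x i) (x j) = if i = j then 1 else 0)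
    (h2 : ∀ i j, p.run (L + 1) (x' i) (x j) = ψ i j) :
    adj (p.Fm x L) * Dd Γ x x' L * p.Fm x L = ψ := by
  have e1 : Dm x L (MonoidAlgebra ℤ Γ) * p.Fm x L = 1 := by
    rw [DF]
    ext1 i j
    rw [Matrix.of_apply, h1, Matrix.one_apply]
  have e2 : Dm x' L (MonoidAlgebra ℤ Γ) * p.Fm x L = ψ := by
    rw [DF]
    ext1 i j
    rw [Matrix.of_apply, h2]
  have e3 : adj (p.Fm x L) * Dd Γ x x' L * p.Fm x L =
      adj (Dm x L (MonoidAlgebra ℤ Γ) * p.Fm x L) * (Dm x' L (MonoidAlgebra ℤ Γ) * p.Fm x L) := by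
    unfold Dd
    rw [adj_mul]
    simp only [Matrix.mul_assoc]
  rw [e3, e1, e2, adj_one, Matrix.one_mul]

theorem conj_UU (ε : ℤ) (ψ : Matrix (Fin n) (Fin n) (MonoidAlgebra ℤ Γ))
    (h : adj (p.Fm x L) * Dd Γ x x' L * p.Fm x L = ψ) :
    adj (UU p x x' L ε) * fromBlocks ψ 0 0 (hyp Γ (Fin (L + 1) × Fin m)) * UU p x x' L ε =
      PH p x x' L + (fromBlocks ψ 0 (fromRows 0 (-(Dd Γ x x' L * p.Fm x L))) 0 -
        ε • adj (fromBlocks ψ 0 (fromRows 0 (-(Dd Γ x x' L * p.Fm x L))) 0)) := by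
  have h3 : adj (p.Fm x L) * adj (Dd Γ x x' L) * p.Fm x L = adj ψ := by
    rw [← h, adj_mul, adj_mul, adj_adj, Matrix.mul_assoc]
  unfold UU PH hyp
  rw [adj_fromBlocks, adj_fromRows, adj_fromBlocks, adj_adj, adj_adj, adj_zero, adj_one, adj_zero,
    adj_one, adj_neg, adj_zsmul, adj_mul, fromBlocks_multiply, fromBlocks_multiply]
  simp only [Matrix.one_mul, Matrix.mul_one, Matrix.zero_mul, Matrix.mul_zero, add_zero, zero_add]
  rw [adj_fromBlocks, adj_fromRows, adj_zero, adj_zero, adj_zero, adj_neg, adj_mul,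
    fromBlocks_smul, fb_sub, fromBlocks_add]
  congr 1
  · rw [fromCols_mul_fromBlocks, fromCols_mul_fromRows]
    simp only [Matrix.mul_zero, Matrix.mul_one, add_zero, Matrix.zero_mul, zero_add, Matrix.mul_neg]
    rw [Matrix.smul_mul, h3]
    abel
  · rw [fromCols_mul_fromBlocks, fromCols_mul_fromBlocks]
    simp only [Matrix.mul_zero, Matrix.mul_one, add_zero, Matrix.zero_mul, zero_add]
    ext i (j | j)
    · simp
    · simp
  · rw [fromBlocks_multiply, fromBlocks_mul_fromRows]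
    simp only [Matrix.mul_zero, Matrix.mul_one, add_zero, Matrix.zero_mul, zero_add,
      Matrix.mul_neg]
    rw [NF]
    ext (i | i) j
    · simp
    · simp
  · rw [fromBlocks_multiply, fromBlocks_multiply]
    simp only [Matrix.mul_zero, Matrix.mul_one, add_zero, Matrix.zero_mul, zero_add]
    simp

/-- heights for the change of basis -/
def ht (L : ℕ) {n m : ℕ} : Fin n ⊕ (Fin (L + 1) × Fin m ⊕ Fin (L + 1) × Fin m) → ℤ
  | Sum.inl _ => 2 * (L : ℤ) + 9
  | Sum.inr (Sum.inl e) => hgt L e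
  | Sum.inr (Sum.inr _) => 2 * (L : ℤ) + 8

theorem hgt_lt (L : ℕ) {m : ℕ} (v : Fin (L + 1) × Fin m) : hgt L v < 2 * (L : ℤ) + 8 := by
  have := v.1.2
  unfold hgt
  omega

theorem UU_fil (ε : ℤ) : Fil (ht L (n := n) (m := m)) (ht L) 1 (UU p x x' L ε - 1) := by
  have h : UU p x x' L ε - 1 =
      fromBlocks 0 0 (fromRows (ε • (Dd Γ x x' L * p.Fm x L)) (-(p.Fm x L)))
        (fromBlocks (-(adj (p.Nm L))) (adj (Dd Γ x x' L)) 0 0) := by
    unfold UU
    rw [← fromBlocks_one, fb_sub, ← fromBlocks_one, fb_sub, adj_sub, adj_one]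
    simp
  rw [h]
  rintro (i | i | i) (j | j | j) hne
  · exact absurd rfl hne
  · exact absurd rfl hne
  · exact absurd rfl hne
  · have := hgt_lt L i
    simp only [ht]
    omega
  · simp only [ht]
    have h2 : p.Nm L j i ≠ 0 := by
      intro h3
      apply hne
      change (-(adj (p.Nm L))) i j = 0
      rw [Matrix.neg_apply, adj_apply, h3, bar_zero, neg_zero]
    have := N_lower p L h2
    omega
  · have := hgt_lt L i
    simp only [ht]
    omega
  · simp only [ht]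
    omega
  · exact absurd rfl hne
  · exact absurd rfl hne

/-- the lattice form is simply isometric to the stabilised form -/
theorem iso_PH (ε : ℤ) (ψ : Matrix (Fin n) (Fin n) (MonoidAlgebra ℤ Γ))
    (h : adj (p.Fm x L) * Dd Γ x x' L * p.Fm x L = ψ) :
    Iso ε (fromBlocks ψ 0 0 (hyp Γ (Fin (L + 1) × Fin m))) (PH p x x' L) := by
  have hf : Fil (fun k => -ht L (n := n) (m := m) k) (fun k => -ht L k) 1
      (adj (UU p x x' L ε) - 1) := by
    intro i j hij
    have h2 : (UU p x x' L ε - 1) j i ≠ 0 := by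
      intro h3
      apply hij
      have h4 : adj (UU p x x' L ε) - 1 = adj (UU p x x' L ε - 1) := by rw [adj_sub, adj_one]
      rw [h4, adj_apply, h3, bar_zero]
    have h5 := UU_fil p x x' L ε j i h2
    change -ht L i + 1 ≤ -ht L j
    omega
  obtain ⟨E, hE⟩ := unit_of_fil _ _ hf
  refine ⟨E, fromBlocks ψ 0 (fromRows 0 (-(Dd Γ x x' L * p.Fm x L))) 0,
    TT_of_fil _ _ E (by rw [hE]; exact hf), ?_⟩
  rw [hE, adj_adj]
  exact conj_UU p x x' L ε ψ h

end defs

end Pool.Agent.V5helper31.GF
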