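import Pool.Agent.V5helper31.GF.Form

/-!
# The lattice form is supported on the triangular lattice
-/

set_option autoImplicit false
set_option linter.unusedSectionVars false

namespace Pool.Agent.V5helper31.GF

open Matrix TH57.Thr TH6.LF TH6.CX Pool.Agent.R719.LF Pool.Agent.R472.Grid

/-- neighbouring points of the triangular lattice -/
def Tri (a b : ℤ × ℤ) : Prop :=
  b = (a.1 + 1, a.2) ∨ b = (a.1, a.2 + 1) ∨ b = (a.1 + 1, a.2 + 1) ∨
    a = (b.1 + 1, b.2) ∨ a = (b.1, b.2 + 1) ∨ a = (b.1 + 1, b.2 + 1)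

theorem Tri.symm {a b : ℤ × ℤ} (h : Tri a b) : Tri b a := by
  unfold Tri at *
  tauto

theorem tri_of_grid {a b : ℤ × ℤ} (h : GridAdj a b) : Tri a b := by
  obtain ⟨a1, a2⟩ := a
  obtain ⟨b1, b2⟩ := b
  unfold GridAdj at h
  unfold Tri
  simp only [Prod.mk.injEq] at *
  omega

section lat

variable {Γ : Type} [Group Γ] {n m : ℕ} {G : Set (MonoidAlgebra ℤ Γ)} (p : Prog G m)
  (x x' : Fin n → Fin m) (L : ℕ)

/-- positions -/
def pos : Fin n ⊕ (Fin (L + 1) × Fin m ⊕ Fin (L + 1) × Fin m) → ℤ × ℤ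
  | Sum.inl j => colPos x L (Sum.inl j)
  | Sum.inr (Sum.inl e) => rowPos x L (Sum.inr e)
  | Sum.inr (Sum.inr v) => colPos x L (Sum.inr v)

theorem pos_inj (hx : Function.Injective x) : Function.Injective (pos x L) := by
  rintro (i | i | i) (j | j | j) h
  · exact congrArg _ (Sum.inl_injective (colPos_inj x L hx h))
  · exact absurd h.symm (pos_ne x x L (Sum.inr j) (Sum.inl i))
  · have h1 : (Sum.inl i : Fin n ⊕ Fin (L + 1) × Fin m) = Sum.inr j := colPos_inj x L hx h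
    exact absurd h1 (by simp)
  · exact absurd h (pos_ne x x L (Sum.inr i) (Sum.inl j))
  · have h1 : (Sum.inr i : Fin n ⊕ Fin (L + 1) × Fin m) = Sum.inr j := rowPos_inj x L hx h
    rw [Sum.inr_injective h1]
  · exact absurd h (pos_ne x x L (Sum.inr i) (Sum.inr j))
  · have h1 : (Sum.inr i : Fin n ⊕ Fin (L + 1) × Fin m) = Sum.inl j := colPos_inj x L hx h
    exact absurd h1 (by simp)
  · exact absurd h.symm (pos_ne x x L (Sum.inr j) (Sum.inr i))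
  · have h1 : (Sum.inr i : Fin n ⊕ Fin (L + 1) × Fin m) = Sum.inr j := colPos_inj x L hx h
    rw [Sum.inr_injective h1]

theorem Dd_apply (hx : Function.Injective x) (v v' : Fin (L + 1) × Fin m) :
    Dd Γ x x' L v v' = 0 ∨ (Dd Γ x x' L v v' = 1 ∧ ∃ i, (v.1 : ℕ) = L ∧ v.2 = x i ∧
      (v'.1 : ℕ) = L ∧ v'.2 = x' i) := by
  classical
  unfold Dd
  rw [Matrix.mul_apply]
  by_cases h : ∃ i, (v.1 : ℕ) = L ∧ v.2 = x i ∧ (v'.1 : ℕ) = L ∧ v'.2 = x' i
  · right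
    refine ⟨?_, h⟩
    obtain ⟨i, h1, h2, h3, h4⟩ := h
    rw [Finset.sum_eq_single i]
    · rw [adj_apply]
      simp only [R472.Grid.Dm, Matrix.of_apply]
      rw [if_pos ⟨h1, h2⟩, if_pos ⟨h3, h4⟩, bar_one, mul_one]
    · intro j _ hj
      rw [adj_apply]
      simp only [R472.Grid.Dm, Matrix.of_apply]
      rw [if_neg, bar_zero, zero_mul]
      rintro ⟨_, h5⟩
      exact hj (hx (h5.symm.trans h2))
    · intro h5
      exact absurd (Finset.mem_univ _) h5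
  · left
    refine Finset.sum_eq_zero fun i _ => ?_
    rw [adj_apply]
    simp only [R472.Grid.Dm, Matrix.of_apply]
    by_cases h1 : (v.1 : ℕ) = L ∧ v.2 = x i
    · rw [if_neg (c := (v'.1 : ℕ) = L ∧ v'.2 = x' i), mul_zero]
      rintro ⟨h3, h4⟩
      exact h ⟨i, h1.1, h1.2, h3, h4⟩
    · rw [if_neg h1, bar_zero, zero_mul]

/-- the shape of the nonzero entries of the symmetrisation -/
inductive Sh (x x' : Fin n → Fin m) (B : Fin n ⊕ Fin (L + 1) × Fin m →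
    Fin n ⊕ Fin (L + 1) × Fin m → Prop) :
    Fin n ⊕ (Fin (L + 1) × Fin m ⊕ Fin (L + 1) × Fin m) →
    Fin n ⊕ (Fin (L + 1) × Fin m ⊕ Fin (L + 1) × Fin m) → Prop
  | pv (e : Fin (L + 1) × Fin m) (j : Fin n) (h : B (Sum.inr e) (Sum.inl j)) :
      Sh x x' B (Sum.inr (Sum.inl e)) (Sum.inl j)
  | vp (e : Fin (L + 1) × Fin m) (j : Fin n) (h : B (Sum.inr e) (Sum.inl j)) :
      Sh x x' B (Sum.inl j) (Sum.inr (Sum.inl e))
  | pf (e v : Fin (L + 1) × Fin m) (h : B (Sum.inr e) (Sum.inr v)) :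
      Sh x x' B (Sum.inr (Sum.inl e)) (Sum.inr (Sum.inr v))
  | fp (e v : Fin (L + 1) × Fin m) (h : B (Sum.inr e) (Sum.inr v)) :
      Sh x x' B (Sum.inr (Sum.inr v)) (Sum.inr (Sum.inl e))
  | ff (v v' : Fin (L + 1) × Fin m) (i : Fin n) (h1 : (v.1 : ℕ) = L) (h2 : v.2 = x i)
      (h3 : (v'.1 : ℕ) = L) (h4 : v'.2 = x' i) :
      Sh x x' B (Sum.inr (Sum.inr v)) (Sum.inr (Sum.inr v'))
  | ff' (v v' : Fin (L + 1) × Fin m) (i : Fin n) (h1 : (v.1 : ℕ) = L) (h2 : v.2 = x i)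
      (h3 : (v'.1 : ℕ) = L) (h4 : v'.2 = x' i) :
      Sh x x' B (Sum.inr (Sum.inr v')) (Sum.inr (Sum.inr v))

theorem PH_shape {ε : ℤ} (hε : ε = 1 ∨ ε = -1) (hx : Function.Injective x)
    (hxx : ∀ i j, x i ≠ x' j) (hbar : ∀ g ∈ G, bar g ∈ G) (h1 : (1 : MonoidAlgebra ℤ Γ) ∈ G)
    (hneg : ∀ g ∈ G, -g ∈ G) (hB : ∀ k l, p.B x x L k l = 0 ∨ p.B x x L k l ∈ G)
    (k l : Fin n ⊕ (Fin (L + 1) × Fin m ⊕ Fin (L + 1) × Fin m)) :
    (lam ε (PH p x x' L) k l = 0 ∨ lam ε (PH p x x' L) k l ∈ G) ∧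
    (lam ε (PH p x x' L) k l ≠ 0 → Sh L x x' (fun a b => p.B x x L a b ≠ 0) k l) := by
  have hz : (ε • (0 : MonoidAlgebra ℤ Γ)) = 0 := smul_zero _
  have hsm : ∀ g : MonoidAlgebra ℤ Γ, g = 0 ∨ g ∈ G → ε • bar g = 0 ∨ ε • bar g ∈ G := by
    rintro g (rfl | hg)
    · left; rw [bar_zero, smul_zero]
    · right
      rcases hε with rfl | rfl
      · rw [one_smul]; exact hbar g hg
      · rw [neg_smul, one_smul]; exact hneg _ (hbar g hg)
  rw [lam_apply]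
  rcases k with i | e | v <;> rcases l with j | e' | v'
  · have e1 : PH p x x' L (Sum.inl i) (Sum.inl j) = 0 := rfl
    have e2 : PH p x x' L (Sum.inl j) (Sum.inl i) = 0 := rfl
    rw [e1, e2, bar_zero, hz, add_zero]
    exact ⟨Or.inl rfl, fun h => absurd rfl h⟩
  · have e1 : PH p x x' L (Sum.inl i) (Sum.inr (Sum.inl e')) = 0 := rfl
    have e2 : PH p x x' L (Sum.inr (Sum.inl e')) (Sum.inl i) = p.B x x L (Sum.inr e') (Sum.inl i) :=
      rfl
    rw [e1, e2, zero_add]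
    refine ⟨hsm _ (hB _ _), fun h => Sh.vp e' i fun h0 => h ?_⟩
    rw [h0, bar_zero, smul_zero]
  · have e1 : PH p x x' L (Sum.inl i) (Sum.inr (Sum.inr v')) = 0 := rfl
    have e2 : PH p x x' L (Sum.inr (Sum.inr v')) (Sum.inl i) = 0 := rfl
    rw [e1, e2, bar_zero, hz, add_zero]
    exact ⟨Or.inl rfl, fun h => absurd rfl h⟩
  · have e1 : PH p x x' L (Sum.inr (Sum.inl e)) (Sum.inl j) = p.B x x L (Sum.inr e) (Sum.inl j) :=
      rfl
    have e2 : PH p x x' L (Sum.inl j) (Sum.inr (Sum.inl e)) = 0 := rfl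
    rw [e1, e2, bar_zero, hz, add_zero]
    exact ⟨hB _ _, fun h => Sh.pv e j h⟩
  · have e1 : PH p x x' L (Sum.inr (Sum.inl e)) (Sum.inr (Sum.inl e')) = 0 := rfl
    have e2 : PH p x x' L (Sum.inr (Sum.inl e')) (Sum.inr (Sum.inl e)) = 0 := rfl
    rw [e1, e2, bar_zero, hz, add_zero]
    exact ⟨Or.inl rfl, fun h => absurd rfl h⟩
  · have e1 : PH p x x' L (Sum.inr (Sum.inl e)) (Sum.inr (Sum.inr v')) =
      p.B x x L (Sum.inr e) (Sum.inr v') := rfl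
    have e2 : PH p x x' L (Sum.inr (Sum.inr v')) (Sum.inr (Sum.inl e)) = 0 := rfl
    rw [e1, e2, bar_zero, hz, add_zero]
    exact ⟨hB _ _, fun h => Sh.pf e v' h⟩
  · have e1 : PH p x x' L (Sum.inr (Sum.inr v)) (Sum.inl j) = 0 := rfl
    have e2 : PH p x x' L (Sum.inl j) (Sum.inr (Sum.inr v)) = 0 := rfl
    rw [e1, e2, bar_zero, hz, add_zero]
    exact ⟨Or.inl rfl, fun h => absurd rfl h⟩
  · have e1 : PH p x x' L (Sum.inr (Sum.inr v)) (Sum.inr (Sum.inl e')) = 0 := rfl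
    have e2 : PH p x x' L (Sum.inr (Sum.inl e')) (Sum.inr (Sum.inr v)) =
      p.B x x L (Sum.inr e') (Sum.inr v) := rfl
    rw [e1, e2, zero_add]
    refine ⟨hsm _ (hB _ _), fun h => Sh.fp e' v fun h0 => h ?_⟩
    rw [h0, bar_zero, smul_zero]
  · have e1 : PH p x x' L (Sum.inr (Sum.inr v)) (Sum.inr (Sum.inr v')) = Dd Γ x x' L v v' := rfl
    have e2 : PH p x x' L (Sum.inr (Sum.inr v')) (Sum.inr (Sum.inr v)) = Dd Γ x x' L v' v := rfl
    rw [e1, e2]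
    rcases Dd_apply (Γ := Γ) x x' L hx v v' with h2 | ⟨h2, i, h3, h4, h5, h6⟩
    · rcases Dd_apply (Γ := Γ) x x' L hx v' v with h7 | ⟨h7, i, h3, h4, h5, h6⟩
      · rw [h2, h7, bar_zero, hz, add_zero]
        exact ⟨Or.inl rfl, fun h => absurd rfl h⟩
      · rw [h2, h7, zero_add]
        exact ⟨hsm _ (Or.inr h1), fun _ => Sh.ff' v' v i h3 h4 h5 h6⟩
    · rcases Dd_apply (Γ := Γ) x x' L hx v' v with h7 | ⟨_, i', _, h8, _, h9⟩
      · rw [h2, h7, bar_zero, hz, add_zero]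
        exact ⟨Or.inr h1, fun _ => Sh.ff v v' i h3 h4 h5 h6⟩
      · exact absurd (h4.symm.trans h9) (hxx _ _)

theorem PH_diag (hx : Function.Injective x) (hxx : ∀ i j, x i ≠ x' j)
    (k : Fin n ⊕ (Fin (L + 1) × Fin m ⊕ Fin (L + 1) × Fin m)) : PH p x x' L k k = 0 := by
  rcases k with i | e | v
  · rfl
  · rfl
  · have e1 : PH p x x' L (Sum.inr (Sum.inr v)) (Sum.inr (Sum.inr v)) = Dd Γ x x' L v v := rfl
    rw [e1]
    rcases Dd_apply (Γ := Γ) x x' L hx v v with h2 | ⟨_, i, _, h4, _, h6⟩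
    · exact h2
    · exact absurd (h4.symm.trans h6) (hxx _ _)

end lat

end Pool.Agent.V5helper31.GF
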