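import Pool.Agent.V5helper31.GF.Lat

/-!
# Quadratic forms on the triangular lattice: the main theorem
-/

set_option autoImplicit false
set_option linter.unusedSectionVars false

namespace Pool.Agent.V5helper31.GF

open Matrix TH57.Thr TH6.LF TH6.CX Pool.Agent.R719.LF Pool.Agent.R472.Grid

section lat

variable {Γ : Type} [Group Γ] {n m : ℕ} {G : Set (MonoidAlgebra ℤ Γ)} (p : Prog G m)
  (x x' : Fin n → Fin m) (L : ℕ)

theorem sh_adj (h2 : ∀ i, (x i : ℕ) = 2 * i) (h3 : ∀ i, (x' i : ℕ) = 2 * i + 1)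
    (k l : Fin n ⊕ (Fin (L + 1) × Fin m ⊕ Fin (L + 1) × Fin m))
    (h : Sh L x x' (fun a b => p.B x x L a b ≠ 0) k l) : Tri (pos x L k) (pos x L l) := by
  have hc : ∀ a b, p.B x x L a b ≠ 0 → Tri (rowPos x L a) (colPos x L b) := fun a b hab =>
    tri_of_grid (cell_adj p x x L a b (cell_of_ne p x x L a b hab))
  have hff : ∀ (v v' : Fin (L + 1) × Fin m) (i : Fin n), (v.1 : ℕ) = L → v.2 = x i →
      (v'.1 : ℕ) = L → v'.2 = x' i →
      Tri (pos x L (Sum.inr (Sum.inr v))) (pos x L (Sum.inr (Sum.inr v'))) := by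
    intro v v' i e1 e2 e3 e4
    unfold Tri
    simp only [pos, colPos, Prod.mk.injEq, e2, e4, h2, h3, e1, e3]
    push_cast
    omega
  cases h with
  | pv e j h => exact hc _ _ h
  | vp e j h => exact (hc _ _ h).symm
  | pf e v h => exact hc _ _ h
  | fp e v h => exact (hc _ _ h).symm
  | ff v v' i e1 e2 e3 e4 => exact hff v v' i e1 e2 e3 e4
  | ff' v v' i e1 e2 e3 e4 => exact (hff v v' i e1 e2 e3 e4).symm

theorem sh_three (h1 : (1 : MonoidAlgebra ℤ Γ) ∈ G) (hneg : ∀ g ∈ G, -g ∈ G)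
    (hm : n + n ≤ m) (h2 : ∀ i, (x i : ℕ) = 2 * i) (h3 : ∀ i, (x' i : ℕ) = 2 * i + 1)
    (k : Fin n ⊕ (Fin (L + 1) × Fin m ⊕ Fin (L + 1) × Fin m)) :
    {l | Sh L x x' (fun a b => p.B x x L a b ≠ 0) k l}.ncard ≤ 3 := by
  classical
  have hx : Function.Injective x := fun i j h => Fin.ext (by
    have := congrArg Fin.val h; rw [h2, h2] at this; omega)
  obtain ⟨_, _, _, _, _, _, _, hr, hc⟩ := gridG_B p x x L h1 hneg hx hx
  rcases k with j | e | v
  · let f : Fin n ⊕ (Fin (L + 1) × Fin m ⊕ Fin (L + 1) × Fin m) → Fin n ⊕ Fin (L + 1) × Fin m :=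
      Sum.elim Sum.inl (Sum.elim Sum.inr Sum.inr)
    refine le_trans (Set.ncard_le_ncard_of_injOn f ?_ ?_ (Set.toFinite _)) (hc (Sum.inl j))
    · intro l hl
      cases hl with
      | vp e j h => exact h
    · intro l hl l' hl' hf
      cases hl with
      | vp e j h =>
        cases hl' with
        | vp e' j' h' =>
          have h4 : (Sum.inr e : Fin n ⊕ Fin (L + 1) × Fin m) = Sum.inr e' := hf
          rw [Sum.inr_injective h4]
  · let f : Fin n ⊕ (Fin (L + 1) × Fin m ⊕ Fin (L + 1) × Fin m) → Fin n ⊕ Fin (L + 1) × Fin m :=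
      Sum.elim Sum.inl (Sum.elim Sum.inr Sum.inr)
    refine le_trans (Set.ncard_le_ncard_of_injOn f ?_ ?_ (Set.toFinite _)) (hr (Sum.inr e))
    · intro l hl
      cases hl with
      | pv e j h => exact h
      | pf e v h => exact h
    · intro l hl l' hl' hf
      cases hl with
      | pv e j h =>
        cases hl' with
        | pv e' j' h' =>
          have h4 : (Sum.inl j : Fin n ⊕ Fin (L + 1) × Fin m) = Sum.inl j' := hf
          rw [Sum.inl_injective h4]
        | pf e' v' h' =>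
          have h4 : (Sum.inl j : Fin n ⊕ Fin (L + 1) × Fin m) = Sum.inr v' := hf
          exact absurd h4 (by simp)
      | pf e v h =>
        cases hl' with
        | pv e' j' h' =>
          have h4 : (Sum.inr v : Fin n ⊕ Fin (L + 1) × Fin m) = Sum.inl j' := hf
          exact absurd h4 (by simp)
        | pf e' v' h' =>
          have h4 : (Sum.inr v : Fin n ⊕ Fin (L + 1) × Fin m) = Sum.inr v' := hf
          rw [Sum.inr_injective h4]
  · let y : Fin (n + n) → Fin m := fun i => ⟨i, by have := i.2; omega⟩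
    have hy : Function.Injective y := fun i j h => Fin.ext (by
      have := congrArg Fin.val h; simpa [y] using this)
    obtain ⟨_, _, _, _, _, _, _, _, hc2⟩ := gridG_B p y y L h1 hneg hy hy
    let f : Fin n ⊕ (Fin (L + 1) × Fin m ⊕ Fin (L + 1) × Fin m) →
        Fin (n + n) ⊕ Fin (L + 1) × Fin m := fun l =>
      match l with
      | Sum.inl _ => Sum.inr v
      | Sum.inr (Sum.inl e) => Sum.inr e
      | Sum.inr (Sum.inr _) => if h : (v.2 : ℕ) < n + n then Sum.inl ⟨v.2, h⟩ else Sum.inr v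
    have hlt : ∀ i, (x i : ℕ) < n + n := fun i => by rw [h2]; have := i.2; omega
    have hlt' : ∀ i, (x' i : ℕ) < n + n := fun i => by rw [h3]; have := i.2; omega
    have hDm : ∀ (h : (v.2 : ℕ) < n + n), (v.1 : ℕ) = L →
        p.B y y L (Sum.inl ⟨v.2, h⟩) (Sum.inr v) ≠ 0 := by
      intro h h5
      change (if (v.1 : ℕ) = L ∧ v.2 = y ⟨v.2, h⟩ then (1 : MonoidAlgebra ℤ Γ) else 0) ≠ 0
      rw [if_pos ⟨h5, rfl⟩]
      exact one_ne_zero
    refine le_trans (Set.ncard_le_ncard_of_injOn f ?_ ?_ (Set.toFinite _)) (hc2 (Sum.inr v))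
    · intro l hl
      cases hl with
      | fp e v h => exact h
      | ff v v' i e1 e2 e3 e4 =>
        have h4 : (v.2 : ℕ) < n + n := by rw [e2]; exact hlt i
        have h5 : f (Sum.inr (Sum.inr v')) = Sum.inl ⟨v.2, h4⟩ := dif_pos h4
        rw [Set.mem_ofPred_eq, h5]
        exact hDm h4 e1
      | ff' v' v i e1 e2 e3 e4 =>
        have h4 : (v.2 : ℕ) < n + n := by rw [e4]; exact hlt' i
        have h5 : f (Sum.inr (Sum.inr v')) = Sum.inl ⟨v.2, h4⟩ := dif_pos h4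
        rw [Set.mem_ofPred_eq, h5]
        exact hDm h4 e3
    · -- the partner of `v` is unique
      have hpart : ∀ l, Sh L x x' (fun a b => p.B x x L a b ≠ 0) (Sum.inr (Sum.inr v)) l →
          (∃ e, l = Sum.inr (Sum.inl e)) ∨ (∃ v', l = Sum.inr (Sum.inr v') ∧ (v'.1 : ℕ) = L ∧
            (v.2 : ℕ) < n + n ∧
            (((v.2 : ℕ) % 2 = 0 ∧ (v'.2 : ℕ) = v.2 + 1) ∨
              ((v.2 : ℕ) % 2 = 1 ∧ (v'.2 : ℕ) + 1 = v.2))) := by
        intro l hl
        cases hl with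
        | fp e v h => exact Or.inl ⟨e, rfl⟩
        | ff v v' i e1 e2 e3 e4 =>
          right
          refine ⟨v', rfl, e3, by rw [e2]; exact hlt i, Or.inl ?_⟩
          rw [e2, e4, h2, h3]
          omega
        | ff' v' v i e1 e2 e3 e4 =>
          right
          refine ⟨v', rfl, e1, by rw [e4]; exact hlt' i, Or.inr ?_⟩
          rw [e2, e4, h2, h3]
          omega
      intro l hl l' hl' hf
      rcases hpart l hl with ⟨e, rfl⟩ | ⟨w, rfl, w1, w2, w3⟩
      · rcases hpart l' hl' with ⟨e', rfl⟩ | ⟨w', rfl, w1', w2', w3'⟩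
        · have h4 : (Sum.inr e : Fin (n + n) ⊕ Fin (L + 1) × Fin m) = Sum.inr e' := hf
          rw [Sum.inr_injective h4]
        · have h5 : f (Sum.inr (Sum.inr w')) = Sum.inl ⟨v.2, w2'⟩ := dif_pos w2'
          rw [h5] at hf
          exact absurd (show (Sum.inr e : Fin (n + n) ⊕ Fin (L + 1) × Fin m) = Sum.inl _ from hf)
            (by simp)
      · rcases hpart l' hl' with ⟨e', rfl⟩ | ⟨w', rfl, w1', w2', w3'⟩
        · have h5 : f (Sum.inr (Sum.inr w)) = Sum.inl ⟨v.2, w2⟩ := dif_pos w2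
          rw [h5] at hf
          exact absurd (show (Sum.inl _ : Fin (n + n) ⊕ Fin (L + 1) × Fin m) = Sum.inr e' from hf)
            (by simp)
        · have h6 : w = w' := Prod.ext (Fin.ext (by omega)) (Fin.ext (by omega))
          rw [h6]

end lat

/-- **Main theorem** -/
theorem lattice_form {Γ : Type} [Group Γ] (S : Set Γ) (hS : Subgroup.closure S = ⊤) {ε : ℤ}
    (hε : ε = 1 ∨ ε = -1) {n : ℕ} (ψ : Matrix (Fin n) (Fin n) (MonoidAlgebra ℤ Γ)) :
    ∃ (ν : Type) (_ : Fintype ν) (_ : DecidableEq ν)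
      (φ : Matrix (Fin n ⊕ (ν ⊕ ν)) (Fin n ⊕ (ν ⊕ ν)) (MonoidAlgebra ℤ Γ)),
      Iso ε (fromBlocks ψ 0 0 (hyp Γ ν)) φ ∧ (∀ k, φ k k = 0) ∧
      ∃ q : Fin n ⊕ (ν ⊕ ν) → ℤ × ℤ, Function.Injective q ∧
        (∀ k l, lam ε φ k l ≠ 0 → Tri (q k) (q l)) ∧
        (∀ k l, lam ε φ k l = 0 ∨ ∃ s : Γ, (s = 1 ∨ s ∈ S ∨ s⁻¹ ∈ S) ∧
          (lam ε φ k l = MonoidAlgebra.single s 1 ∨ lam ε φ k l = MonoidAlgebra.single s (-1))) ∧
        ∀ k, {l | lam ε φ k l ≠ 0}.ncard ≤ 3 := by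
  classical
  let G : Set (MonoidAlgebra ℤ Γ) := {x | ∃ s : Γ, (s = 1 ∨ s ∈ S ∨ s⁻¹ ∈ S) ∧
      (x = MonoidAlgebra.single s 1 ∨ x = MonoidAlgebra.single s (-1))}
  have h1 : (1 : MonoidAlgebra ℤ Γ) ∈ G := ⟨1, Or.inl rfl, Or.inl rfl⟩
  have hneg : ∀ g ∈ G, -g ∈ G := by
    rintro g ⟨s, hs, h | h⟩
    · exact ⟨s, hs, Or.inr (by rw [h, ← MonoidAlgebra.single_neg])⟩
    · exact ⟨s, hs, Or.inl (by rw [h, ← MonoidAlgebra.single_neg, neg_neg])⟩
  have hbar : ∀ g ∈ G, bar g ∈ G := by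
    rintro g ⟨s, hs, h⟩
    refine ⟨s⁻¹, ?_, ?_⟩
    · rcases hs with hs | hs | hs
      · left; rw [hs, inv_one]
      · right; right; rwa [inv_inv]
      · right; left; exact hs
    · rcases h with h | h
      · left; rw [h, bar_single]
      · right; rw [h, bar_single]
  have hG : GenBy G := genBy S hS
  let m := n + n + 3
  let x : Fin n → Fin m := fun j => ⟨2 * j, by have := j.2; omega⟩
  let x' : Fin n → Fin m := fun j => ⟨2 * j + 1, by have := j.2; omega⟩
  have hx2 : ∀ i, (x i : ℕ) = 2 * i := fun _ => rfl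
  have hx3 : ∀ i, (x' i : ℕ) = 2 * i + 1 := fun _ => rfl
  have hx : Function.Injective x := fun i j h => Fin.ext (by
    have := congrArg Fin.val h; rw [hx2, hx2] at this; omega)
  have hxx : ∀ i j, x i ≠ x' j := by
    intro i j h
    have := congrArg Fin.val h
    rw [hx2, hx3] at this
    omega
  let Z : Matrix (Fin m) (Fin m) (MonoidAlgebra ℤ Γ) := fun k l =>
    if h : ((k : ℕ) % 2 = 1 ∧ (k : ℕ) < n + n) ∧ ((l : ℕ) % 2 = 0 ∧ (l : ℕ) < n + n) then
      ψ ⟨(k : ℕ) / 2, by omega⟩ ⟨(l : ℕ) / 2, by omega⟩ else 0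
  have hZ : 1 + Z ∈ El (R := MonoidAlgebra ℤ Γ) (Fin m) := by
    apply el_unip (Finset.univ.filter fun k : Fin m => (k : ℕ) % 2 = 1)
    intro k l h
    by_cases hh : ((k : ℕ) % 2 = 1 ∧ (k : ℕ) < n + n) ∧ ((l : ℕ) % 2 = 0 ∧ (l : ℕ) < n + n)
    · simp only [Finset.mem_filter, Finset.mem_univ, true_and]
      omega
    · exact absurd (dif_neg hh) h
  obtain ⟨L, p, hp⟩ := exists_prog (G := G) (by omega) (1 + Z)
    (El_le h1 hneg hG (by omega) (1 + Z) hZ)
  have hr1 : ∀ i j, p.run (L + 1) (x i) (x j) = if i = j then 1 else 0 := by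
    intro i j
    have e1 : Z (x i) (x j) = 0 := by
      apply dif_neg
      rw [hx2, hx2]
      omega
    rw [hp, Matrix.add_apply, e1, add_zero, Matrix.one_apply]
    by_cases hij : i = j
    · rw [hij, if_pos rfl, if_pos rfl]
    · rw [if_neg (fun h => hij (hx h)), if_neg hij]
  have hr2 : ∀ i j, p.run (L + 1) (x' i) (x j) = ψ i j := by
    intro i j
    have e0 : ((x' i : ℕ) % 2 = 1 ∧ (x' i : ℕ) < n + n) ∧
        ((x j : ℕ) % 2 = 0 ∧ (x j : ℕ) < n + n) := by
      rw [hx2, hx3]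
      have := i.2
      have := j.2
      omega
    have e1 : Z (x' i) (x j) = ψ i j := by
      change (if h : ((x' i : ℕ) % 2 = 1 ∧ (x' i : ℕ) < n + n) ∧
        ((x j : ℕ) % 2 = 0 ∧ (x j : ℕ) < n + n) then
        ψ ⟨(x' i : ℕ) / 2, by omega⟩ ⟨(x j : ℕ) / 2, by omega⟩ else 0) = ψ i j
      rw [dif_pos e0]
      congr 1
      · apply Fin.ext
        change (2 * (i : ℕ) + 1) / 2 = i
        omega
      · apply Fin.ext
        change (2 * (j : ℕ)) / 2 = j
        omega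
    rw [hp, Matrix.add_apply, e1, Matrix.one_apply_ne (fun h => hxx j i h.symm), zero_add]
  obtain ⟨_, _, _, _, _, _, hBG, _, _⟩ := gridG_B p x x L h1 hneg hx hx
  have hsh := PH_shape p x x' L hε hx hxx hbar h1 hneg hBG
  refine ⟨Fin (L + 1) × Fin m, inferInstance, inferInstance, PH p x x' L,
    iso_PH p x x' L ε ψ (DFF p x x' L ψ hr1 hr2), PH_diag p x x' L hx hxx, pos x L,
    pos_inj x L hx, fun k l h => sh_adj p x x' L hx2 hx3 k l ((hsh k l).2 h),
    fun k l => (hsh k l).1, fun k => ?_⟩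
  refine le_trans (Set.ncard_le_ncard (fun l hl => (hsh k l).2 hl) (Set.toFinite _))
    (sh_three p x x' L h1 hneg (by omega) hx2 hx3 k)

end Pool.Agent.V5helper31.GF
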